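import Pool.Agent.H41.HYP.S3
import Pool.Agent.H53.AVS.CPP
import Pool.Agent.H20.HYP.LIN
import Pool.Agent.H94.HYP.GDT
import Pool.Agent.H6.HYP.SPC
import Pool.Agent.H70.HYP.NMU

/-!
# HYP, row ONE: a twist with trivial Selmer group
-/

set_option autoImplicit false

namespace Pool.HYP

open Polynomial Matrix Pool.AVS IsDedekindDomain

namespace One86

section Maps

variable {K L : Type} [Field K] [Field L]

theorem tau_map (ι : K →+* L) {f : K[X]} (hf : f.Monic) (p : K[X]) :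
    tau (f.map ι) (p.map ι) = ι (tau f p) := by
  unfold tau
  rw [← map_modByMonic ι hf, coeff_map, hf.natDegree_map ι]

theorem gr_map (ι : K →+* L) (k n : ℕ) {f : K[X]} (hf : f.Monic) (h : K[X]) :
    gr k n (f.map ι) (h.map ι) = (gr k n f h).map ι := by
  ext i j
  simp only [gr, Matrix.of_apply, Matrix.map_apply]
  rw [← tau_map ι hf]
  simp only [Polynomial.map_mul, Polynomial.map_pow, map_X]

theorem gr_symm (k n : ℕ) (f h : K[X]) : (gr k n f h)ᵀ = gr k n f h := by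
  ext i j
  simp only [gr, Matrix.of_apply, Matrix.transpose_apply]
  rw [add_comm (j : ℕ) (i : ℕ)]

theorem norm_ne {f h : K[X]} (_hf : f.Monic) (hc : IsCoprime h f) :
    Algebra.norm K (AdjoinRoot.mk f h) ≠ 0 := by
  obtain ⟨a, b, hab⟩ := hc
  have h1 : AdjoinRoot.mk f a * AdjoinRoot.mk f h = 1 := by
    have := congrArg (AdjoinRoot.mk f) hab
    rwa [map_add, map_mul, map_mul, AdjoinRoot.mk_self, mul_zero, add_zero, map_one] at this
  have h2 := congrArg (Algebra.norm K) h1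
  rw [map_mul, map_one] at h2
  intro h0
  rw [h0, mul_zero] at h2
  exact zero_ne_one h2

theorem cop_map (ι : K →+* L) {f h : K[X]} (hc : IsCoprime h f) :
    IsCoprime (h.map ι) (f.map ι) := by
  obtain ⟨a, b, hab⟩ := hc
  refine ⟨a.map ι, b.map ι, ?_⟩
  rw [← Polynomial.map_mul, ← Polynomial.map_mul, ← Polynomial.map_add, hab, Polynomial.map_one]

theorem nsq_mul {f h h' : K[X]} (h1 : NSq f h) (h2 : NSq f h') : NSq f (h * h') := by
  unfold NSq at *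
  rw [map_mul, map_mul]
  exact h1.mul h2

theorem nsq_map (ι : K →+* L) {f h : K[X]} (hf : f.Monic) (h1 : NSq f h) :
    NSq (f.map ι) (h.map ι) := by
  obtain ⟨r, hr⟩ := h1
  refine ⟨ι r, ?_⟩
  rw [nmu.2.2.2 K L ι f h hf, hr, map_mul]

end Maps

section Places

variable {F : Type} [Field F]

/-- The place of an irreducible polynomial. -/
noncomputable def vv (P : F[X]) : HeightOneSpectrum F[X] :=
  open Classical in
  if h : Irreducible P then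
    ⟨Ideal.span {P}, (Ideal.span_singleton_prime h.ne_zero).2 h.prime, by simp [h.ne_zero]⟩
  else ⟨Ideal.span {X}, (Ideal.span_singleton_prime X_ne_zero).2 prime_X, by
    simpa using X_ne_zero⟩

theorem vv_ideal {P : F[X]} (h : Irreducible P) : (vv P).asIdeal = Ideal.span {P} := by
  unfold vv
  rw [dif_pos h]

/-- The completion at `P`. -/
abbrev LL (P : F[X]) : Type := (vv P).adicCompletion (RatFunc F)

/-- The integers of the completion at `P`. -/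
noncomputable abbrev OO (P : F[X]) : ValuationSubring (LL P) := (vv P).adicCompletionIntegers (RatFunc F)

/-- The embedding in the completion at `P`. -/
noncomputable abbrev ii (P : F[X]) : RatFunc F →+* LL P :=
  algebraMap (RatFunc F) ((vv P).adicCompletion (RatFunc F))

theorem comp [Finite F] (h2 : (2 : F) ≠ 0) {P : F[X]} (hP : P.Monic) (hi : Irreducible P) :
    IsComp F (IP P) (rf P) (LL P) (OO P) (ii P) :=
  cpp_thm F h2 P hP hi (vv P) (vv_ideal hi)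

/-- The local data at a prime of `T`. -/
theorem locdata (hI : INOStmt) (hL : LDEStmt) [Finite F] {g : ℕ} {P : F[X]} {c₀ : F[X]}
    {γ₀ : F[X][X]} (hok : OkP g P γ₀) (hg : 1 ≤ g) {f : F[X][X]} (hf : f.Monic)
    (hd : C P ∣ f - (X - C c₀) * γ₀) {L : Type} [Field L] {O : ValuationSubring L}
    {ι : RatFunc F →+* L} (hC : IsComp F (IP P) (rf P) L O ι) :
    ∃ (c : O) (γ : O[X]), OkL O g γ ∧ (fK f).map ι = oL O ((X - C c) * γ) ∧
      (∀ h, IsCoprime h (fK f) → (USL O ((X - C c) * γ) (h.map ι) ↔ US P f h)) ∧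
      (∀ h, IsCoprime h (fK f) → TRL O ((X - C c) * γ) (h.map ι) → TR P f h) := by
  obtain ⟨fO, hfm, -, hfO, -, h2, h3, h4⟩ := hI F P hok.1 hok.2.1 L O ι hC f hf
  obtain ⟨c₁, γ₁, hm, hn, hir, hrd⟩ := h2 c₀ γ₀ g hok hd
  obtain ⟨c, γ, hk, hfc, -, -⟩ := hL L O (ι (rf P)) hC.loc g fO c₁ γ₁ hg hfm hm hn hir hrd
  subst hfc
  exact ⟨c, γ, hk, hfO.symm, h3, h4⟩

/-- The form of the class of a unit is split. -/
theorem spl_of_us (hI : INOStmt) (hU : USPStmt) [Finite F] {g : ℕ} {P : F[X]} (hP : P.Monic)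
    (hi : Irreducible P) {f : F[X][X]} (hf : f.Monic) (hn : f.natDegree = 2 * g + 1)
    {L : Type} [Field L] {O : ValuationSubring L} {ι : RatFunc F →+* L}
    (hC : IsComp F (IP P) (rf P) L O ι) {α : (RatFunc F)[X]} (hα : IsCoprime α (fK f))
    (hus : US P f α) : SplM g ((gr 0 (2 * g + 1) (fK f) α).map ι) := by
  obtain ⟨fO, hfm, hfn, hfO, -, -, h3, -⟩ := hI F P hP hi L O ι hC f hf
  rw [← gr_map ι 0 (2 * g + 1) (hf.map _) α, ← hfO]
  exact hU L O (ι (rf P)) hC.loc g fO (α.map ι) hfm (hfn.trans hn) ((h3 α hα).2 hus)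

/-- The form is split at infinity. -/
theorem spl_inf (hINF : INFStmt) (hUNI : UNIStmt) {g : ℕ} {D : Dat F} {h : ℕ}
    (hok : D.Ok g) {f : F[X][X]} (hf : f ∈ Fam g D h) {α : (RatFunc F)[X]}
    (hα : IsCoprime α (fK f)) (hN : NSq (fK f) α) {L : Type} [Field L]
    {O : ValuationSubring L} {ι : RatFunc F →+* L}
    (hC : IsComp F (Iinf F) (RatFunc.X)⁻¹ L O ι) :
    SplM g ((gr 0 (2 * g + 1) (fK f) α).map ι) := by
  obtain ⟨gi, hdet, ⟨hM, hne, hd1, hd2⟩, -⟩ := hINF F g D h hok.2.1 hok.2.2.1 hok.2.2.2 f hf α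
    hα hN
  set G := gr 0 (2 * g + 1) (fK f) α with hG
  have hGs : Gᵀ = G := gr_symm _ _ _ _
  have e1 : (giᵀ * G * gi).map ι = (gi.map ι)ᵀ * G.map ι * gi.map ι := by
    rw [Matrix.map_mul, Matrix.map_mul, Matrix.transpose_map]
  have hs : ((giᵀ * G * gi).map ι)ᵀ = (giᵀ * G * gi).map ι := by
    rw [← Matrix.transpose_map]
    congr 1
    rw [Matrix.transpose_mul, Matrix.transpose_mul, Matrix.transpose_transpose, hGs,
      Matrix.mul_assoc]
  have hdm : ((giᵀ * G * gi).map ι).det = ι (giᵀ * G * gi).det := (RingHom.map_det ι _).symm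
  have h1 := (hUNI L O _ hC.loc (2 * g + 1) ((giᵀ * G * gi).map ι) hs
    (fun i j => (hC.mem _).2 (hM i j)) (by
      rw [hdm]
      refine ⟨(map_ne_zero ι).2 hne, (hC.mem _).2 hd1, ?_⟩
      rw [← map_inv₀]
      exact (hC.mem _).2 hd2)).1 g rfl
  rw [e1] at h1
  refine (spc L g (2 * g + 1) (G.map ι) (gi.map ι) 1 ?_ one_ne_zero).1.1 h1
  rw [show (gi.map ι).det = ι gi.det from (RingHom.map_det ι _).symm]
  exact (map_ne_zero ι).2 hdet

end Places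

/-- A sum of products of types. -/
theorem sum_ty {ι : Type} [Fintype ι] (x : ι → Ty) (h : Even {i | x i = (1, 1)}.ncard) :
    ∑ i, (x i).1 * (x i).2 = 0 := by
  classical
  have h1 : ∀ y : Ty, y.1 * y.2 = if y = (1, 1) then 1 else 0 := by decide
  simp only [h1]
  rw [Finset.sum_boole]
  have h2 : ({i | x i = (1, 1)} : Set ι).ncard = (Finset.univ.filter fun i => x i = (1, 1)).card := by
    rw [← Set.ncard_coe_finset]
    congr 1
    ext i
    simp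
  rw [← h2]
  exact (ZMod.natCast_eq_zero_iff_even).2 h



/-- The choice of the set of primes, with abstract completions. -/
theorem partA (hINO : INOStmt) (hLDE : LDEStmt) (hTYM : TYMStmt)
    (hTY0 : TY0Stmt) (hTYU : TYUStmt) (hQSP : QSPStmt) (hUSP : USPStmt) (hUNI : UNIStmt)
    (hINF : INFStmt) (hUSM : USMStmt) (hREC : RECNStmt) (F : Type) [Field F] [Finite F]
    (h2 : (2 : F) ≠ 0) (g : ℕ) (D : Dat F) (h : ℕ) (hg : 1 ≤ g) (hok : D.Ok g) (f : F[X][X])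
    (hf : f ∈ Fam g D h) (L : F[X] → Type) [∀ P, Field (L P)] (O : ∀ P, ValuationSubring (L P))
    (ι : ∀ P, RatFunc F →+* L P)
    (hcomp : ∀ P ∈ D.T, IsComp F (IP P) (rf P) (L P) (O P) (ι P)) :
    ∃ S ⊆ D.T, ∃ (c : ∀ P : {P // P ∈ D.T}, O P.1) (γ : ∀ P : {P // P ∈ D.T}, (O P.1)[X]),
      (∀ P, OkL (O P.1) g (γ P) ∧
        (fK f).map (ι P.1) = oL (O P.1) ((X - C (c P)) * γ P) ∧
        (∀ h, IsCoprime h (fK f) →
          (USL (O P.1) ((X - C (c P)) * γ P) (h.map (ι P.1)) ↔ US P.1 f h)) ∧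
        (∀ h, IsCoprime h (fK f) → TRL (O P.1) ((X - C (c P)) * γ P) (h.map (ι P.1)) →
          TR P.1 f h)) ∧
      ∀ α : (RatFunc F)[X], IsCoprime α (fK f) → NSq (fK f) α →
        (∀ P : F[X], P.Monic → Irreducible P → P ∉ D.T → US P f α) →
        ∀ x : {P // P ∈ D.T} → Ty,
          (∀ P, TyL (O P.1) (ι P.1 (rf P.1)) (c P) (γ P) (x P) (α.map (ι P.1))) →
          (∀ P, P.1 ∈ S → (x P).2 = 0) → (∀ P, P.1 ∉ S → (x P).1 = 0) →
          (∀ P : F[X], P.Monic → Irreducible P → US P f α) ∧ ∀ P ∈ D.T, TR P f α := by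
  classical
  have hfm : f.Monic := hf.1
  have hfn : f.natDegree = 2 * g + 1 := hf.2.1
  have hfK : (fK f).Monic := hfm.map _
  have hT : ∀ P ∈ D.T, P.Monic ∧ Irreducible P := fun P hP => ⟨(hok.1 P hP).1, (hok.1 P hP).2.1⟩
  -- the local data
  have hloc : ∀ P : {P // P ∈ D.T}, ∃ (c : O P.1) (γ : (O P.1)[X]), OkL (O P.1) g γ ∧
      (fK f).map (ι P.1) = oL (O P.1) ((X - C c) * γ) ∧
      (∀ h, IsCoprime h (fK f) → (USL (O P.1) ((X - C c) * γ) (h.map (ι P.1)) ↔ US P.1 f h)) ∧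
      (∀ h, IsCoprime h (fK f) → TRL (O P.1) ((X - C c) * γ) (h.map (ι P.1)) →
        TR P.1 f h) := fun P =>
    locdata hINO hLDE (hok.1 P.1 P.2) hg hfm (hf.2.2.2 P.1 P.2) (hcomp P.1 P.2)
  choose c γ hOk hfac hUS hTR using hloc
  have hcop : ∀ (P : {P // P ∈ D.T}) (α : (RatFunc F)[X]), IsCoprime α (fK f) →
      IsCoprime (α.map (ι P.1)) (oL (O P.1) ((X - C (c P)) * γ P)) := by
    intro P α hα
    rw [← hfac P]
    exact cop_map (ι P.1) hα
  have hnsq : ∀ (P : {P // P ∈ D.T}) (α : (RatFunc F)[X]), NSq (fK f) α →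
      NSq (oL (O P.1) ((X - C (c P)) * γ P)) (α.map (ι P.1)) := by
    intro P α hα
    rw [← hfac P]
    exact nsq_map (ι P.1) hfK hα
  -- the set of vectors of types
  set M : Set ({P // P ∈ D.T} → ZMod 2 × ZMod 2) := {x | ∃ α : (RatFunc F)[X],
    IsCoprime α (fK f) ∧ NSq (fK f) α ∧
    (∀ P : F[X], P.Monic → Irreducible P → P ∉ D.T → US P f α) ∧
    ∀ P, TyL (O P.1) (ι P.1 (rf P.1)) (c P) (γ P) (x P) (α.map (ι P.1))} with hM
  have hadd : ∀ x ∈ M, ∀ y ∈ M, x + y ∈ M := by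
    rintro x ⟨α, hα, hNα, hUα, hTα⟩ y ⟨β, hβ, hNβ, hUβ, hTβ⟩
    refine ⟨α * β, hα.mul_left hβ, nsq_mul hNα hNβ, fun P h1 h3 h4 =>
      hUSM F P f α β (hUα P h1 h3 h4) (hUβ P h1 h3 h4), fun P => ?_⟩
    rw [Polynomial.map_mul]
    exact hTYM _ _ _ (hcomp P.1 P.2).loc g (c P) (γ P) hg (hOk P) _ _ (x P) (y P) (hcop P α hα)
      (hcop P β hβ) (hnsq P α hNα) (hnsq P β hNβ) (hTα P) (hTβ P)
  have hq : ∀ x ∈ M, ∑ i, (x i).1 * (x i).2 = 0 := by
    rintro x ⟨α, hα, hNα, hUα, hTα⟩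
    apply sum_ty
    obtain ⟨r, hr⟩ := id hNα
    have hr0 : r ≠ 0 := by
      rintro rfl
      exact norm_ne hfK hα (by rw [hr, mul_zero])
    have hpar : (2 * g + 1) * (2 * g + 1 - 1) / 2 = (2 * g + 1) * g := by
      rw [Nat.add_sub_cancel, show (2 * g + 1) * (2 * g) = 2 * ((2 * g + 1) * g) by ring,
        Nat.mul_div_cancel_left _ (by norm_num)]
    have hdet : (gr 0 (2 * g + 1) (fK f) α).det = (-1) ^ g * r ^ 2 := by
      rw [(gdt (RatFunc F) (2 * g + 1) (fK f) hfK (by rw [hfm.natDegree_map, hfn])).2 α, hr, hpar,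
        pow_mul, (odd_two_mul_add_one g).neg_one_pow, pow_two]
    have h1 := hREC F h2 g D.T (gr 0 (2 * g + 1) (fK f) α) r hg (gr_symm _ _ _ _) hr0 hdet hT L
      O ι hcomp (fun P h3 h4 h5 L' _ O' ι' hC =>
        spl_of_us hINO hUSP h3 h4 hfm hfn hC hα (hUα P h3 h4 h5))
      (fun L' _ O' ι' hC => spl_inf hINF hUNI hok hf hα hNα hC)
    have h3 : ({P | P ∈ D.T ∧ ¬ SplM g ((gr 0 (2 * g + 1) (fK f) α).map (ι P))} : Set F[X]) =
        Subtype.val '' {P : {P // P ∈ D.T} | x P = (1, 1)} := by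
      ext P
      constructor
      · rintro ⟨hP, h4⟩
        refine ⟨⟨P, hP⟩, ?_, rfl⟩
        by_contra h5
        refine h4 ?_
        rw [← gr_map (ι P) 0 (2 * g + 1) hfK α, hfac ⟨P, hP⟩]
        exact (hQSP _ _ _ (hcomp P hP).loc g (c ⟨P, hP⟩) (γ ⟨P, hP⟩) hg (hOk _) _ (x ⟨P, hP⟩)
          (hcop ⟨P, hP⟩ α hα) (hnsq ⟨P, hP⟩ α hNα) (hTα ⟨P, hP⟩)).2 h5
      · rintro ⟨⟨P, hP⟩, h5, rfl⟩
        refine ⟨hP, fun h4 => ?_⟩
        rw [← gr_map (ι P) 0 (2 * g + 1) hfK α, hfac ⟨P, hP⟩] at h4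
        exact (hQSP _ _ _ (hcomp P hP).loc g (c ⟨P, hP⟩) (γ ⟨P, hP⟩) hg (hOk _) _ (x ⟨P, hP⟩)
          (hcop ⟨P, hP⟩ α hα) (hnsq ⟨P, hP⟩ α hNα) (hTα ⟨P, hP⟩)).1 h4 h5
    rw [h3, Set.ncard_image_of_injective _ Subtype.val_injective] at h1
    exact h1
  obtain ⟨S, hS⟩ := lin {P // P ∈ D.T} M hadd hq
  set S' : Finset F[X] := D.T.filter fun P => ∃ hP : P ∈ D.T, (⟨P, hP⟩ : {P // P ∈ D.T}) ∈ S
    with hS'
  refine ⟨S', Finset.filter_subset _ _, c, γ, fun P => ⟨hOk P, hfac P, hUS P, hTR P⟩, ?_⟩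
  intro α hα hNα hUα x hx hx1 hx2
  have hxM : x ∈ M := ⟨α, hα, hNα, hUα, hx⟩
  have hx0 : x = 0 := by
    refine hS x hxM (fun P hP => ?_) fun P hP => ?_
    · exact hx1 P (Finset.mem_filter.2 ⟨P.2, P.2, hP⟩)
    · refine hx2 P fun h1 => ?_
      obtain ⟨-, h3, h4⟩ := Finset.mem_filter.1 h1
      exact hP h4
  refine ⟨fun P hP hi => ?_, fun P hP => ?_⟩
  · by_cases hPT : P ∈ D.T
    · refine (hUS ⟨P, hPT⟩ α hα).1 ?_
      refine (hTYU _ _ _ (hcomp P hPT).loc g (c ⟨P, hPT⟩) (γ ⟨P, hPT⟩) hg (hOk _) _ (x ⟨P, hPT⟩)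
        (hcop ⟨P, hPT⟩ α hα) (hnsq ⟨P, hPT⟩ α hNα) (hx ⟨P, hPT⟩)).2 ?_
      rw [hx0]
      rfl
    · exact hUα P hP hi hPT
  · refine hTR ⟨P, hP⟩ α hα ?_
    refine hTY0 _ _ _ (hcomp P hP).loc g (c ⟨P, hP⟩) (γ ⟨P, hP⟩) hg (hOk _) _
      (hcop ⟨P, hP⟩ α hα) (hnsq ⟨P, hP⟩ α hNα) ?_
    have := hx ⟨P, hP⟩
    rw [hx0] at this
    exact this

/-- The main step, with abstract completions. -/
theorem core (hINO : INOStmt) (hLDE : LDEStmt) (hCLA : CLAStmt) (hTYM : TYMStmt)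
    (hTY0 : TY0Stmt) (hTYU : TYUStmt) (hQSP : QSPStmt) (hUSP : USPStmt) (hUNI : UNIStmt)
    (hINF : INFStmt) (hUSM : USMStmt) (hREC : RECNStmt)
    (hLDA : LDAStmt) (hLDB : LDBStmt) (F : Type) [Field F] [Finite F] (h2 : (2 : F) ≠ 0)
    (g : ℕ) (D : Dat F) (h : ℕ) (hg : 1 ≤ g) (hok : D.Ok g) (f : F[X][X]) (hf : f ∈ Fam g D h)
    (hsm : Smooth f) (hbad : ¬ Bad D.T f)
    (L : F[X] → Type) [∀ P, Field (L P)] (O : ∀ P, ValuationSubring (L P))
    (ι : ∀ P, RatFunc F →+* L P)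
    (hcomp' : ∀ P : F[X], P.Monic → Irreducible P → IsComp F (IP P) (rf P) (L P) (O P) (ι P)) :
    ∃ S ⊆ D.T, ∀ α : (RatFunc F)[X], IsCoprime α (fK f) → NSq (fK f) α →
      (¬ ∃ s, fK f ∣ α - s ^ 2) →
      (∀ P : F[X], P.Monic → Irreducible P → LSD (ι P) (∏ P ∈ S, P) f α) → False := by
  classical
  have hfm : f.Monic := hf.1
  have hfn : f.natDegree = 2 * g + 1 := hf.2.1
  have hT : ∀ P ∈ D.T, P.Monic ∧ Irreducible P := fun P hP => ⟨(hok.1 P hP).1, (hok.1 P hP).2.1⟩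
  have hcomp : ∀ P ∈ D.T, IsComp F (IP P) (rf P) (L P) (O P) (ι P) := fun P hP =>
    hcomp' P (hT P hP).1 (hT P hP).2
  obtain ⟨S', hsub, c, γ, hdat, hA⟩ := partA hINO hLDE hTYM hTY0 hTYU hQSP hUSP hUNI hINF hUSM
    hREC F h2 g D h hg hok f hf L O ι hcomp
  refine ⟨S', hsub, ?_⟩
  set d : F[X] := ∏ P ∈ S', P with hd
  -- divisibility
  have hdvd : ∀ P : F[X], P.Monic → Irreducible P → P ∣ d → P ∈ S' := by
    intro P hP hi h1
    obtain ⟨Q, hQ, h3⟩ := (hi.prime.dvd_finsetProd_iff _).1 h1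
    have h4 : P = Q := by
      refine eq_of_monic_of_associated hP (hT Q (hsub hQ)).1 ?_
      exact (hi.associated_of_dvd (hT Q (hsub hQ)).2 h3)
    rw [h4]
    exact hQ
  have hsq : ∀ P ∈ S', ¬ P ^ 2 ∣ d := by
    intro P hP h1
    rw [hd, ← Finset.mul_prod_erase S' (fun P => P) hP, pow_two] at h1
    have h3 := (mul_dvd_mul_iff_left (hT P (hsub hP)).1.ne_zero).1 h1
    obtain ⟨Q, hQ, h4⟩ := ((hT P (hsub hP)).2.prime.dvd_finsetProd_iff _).1 h3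
    have h5 : P = Q := by
      refine eq_of_monic_of_associated (hT P (hsub hP)).1
        (hT Q (hsub (Finset.mem_of_mem_erase hQ))).1 ?_
      exact ((hT P (hsub hP)).2.associated_of_dvd (hT Q (hsub (Finset.mem_of_mem_erase hQ))).2 h4)
    exact (Finset.ne_of_mem_erase hQ) h5.symm
  intro α hα hNα hns hLSP
  have hsing : ∀ P : F[X], P.Monic → Irreducible P → ¬ Sing P f := hsm
  have hUS1 : ∀ P : F[X], P.Monic → Irreducible P → P ∉ S' → US P f α := by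
    intro P hP hi hPS
    exact hLDA F h2 g P hP hi _ _ _ (hcomp' P hP hi) f d α hfm hfn (hsing P hP hi)
      (fun h1 => hPS (hdvd P hP hi h1)) hα hNα (hLSP P hP hi)
  have hcop : ∀ (P : {P // P ∈ D.T}), IsCoprime (α.map (ι P.1))
      (oL (O P.1) ((X - C (c P)) * γ P)) := by
    intro P
    rw [← (hdat P).2.1]
    exact cop_map (ι P.1) hα
  have hnsq : ∀ (P : {P // P ∈ D.T}), NSq (oL (O P.1) ((X - C (c P)) * γ P))
      (α.map (ι P.1)) := by
    intro P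
    rw [← (hdat P).2.1]
    exact nsq_map (ι P.1) (hfm.map _) hNα
  have hty : ∀ P : {P // P ∈ D.T}, ∃ x : Ty,
      TyL (O P.1) (ι P.1 (rf P.1)) (c P) (γ P) x (α.map (ι P.1)) := fun P =>
    hCLA _ _ _ (hcomp P.1 P.2).loc g (c P) (γ P) hg (hdat P).1 _ (hcop P)
  choose x hx using hty
  obtain ⟨h3, h4⟩ := hA α hα hNα
    (fun P h1 h3 h4 => hUS1 P h1 h3 fun h5 => h4 (hsub h5)) x hx
    (fun P hPS => hLDB F h2 g P.1 hg (hT P.1 P.2).1 (hT P.1 P.2).2 _ _ _ (hcomp P.1 P.2) f d α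
      (c P) (γ P) (x P) hfm hfn (hdat P).1 (hdat P).2.1 (Finset.dvd_prod_of_mem _ hPS)
      (hsq P.1 hPS) hα hNα (hLSP P.1 (hT P.1 P.2).1 (hT P.1 P.2).2) (hx P))
    (fun P hPS => (hTYU _ _ _ (hcomp P.1 P.2).loc g (c P) (γ P) hg (hdat P).1 _ (x P) (hcop P)
      (hnsq P) (hx P)).1 (((hdat P).2.2.1 α hα).2 (hUS1 P.1 (hT P.1 P.2).1 (hT P.1 P.2).2 hPS)))
  exact hbad ⟨α, hα, hNα, hns, h3, h4⟩

end One86

open One86 in
theorem one (hINO : INOStmt) (hLDE : LDEStmt) (hCLA : CLAStmt) (hTYM : TYMStmt)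
    (hTY0 : TY0Stmt) (hTYU : TYUStmt) (hQSP : QSPStmt) (hUSP : USPStmt) (hUNI : UNIStmt)
    (hINF : INFStmt) (hUSM : USMStmt) (hREC : RECNStmt) (hSE1 : SE1Stmt) (hTWS : TWSStmt)
    (hLDA : LDAStmt) (hLDB : LDBStmt) : ONEStmt := by
  intro F _ _ h2 g D h hg hok f hf hsm hbad
  obtain ⟨S, hS, hcore⟩ := core hINO hLDE hCLA hTYM hTY0 hTYU hQSP hUSP hUNI hINF hUSM hREC hLDA
    hLDB F h2 g D h hg hok f hf hsm hbad LL OO ii (fun P hP hi => comp h2 hP hi)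
  refine ⟨S, hS, ?_⟩
  ext ξ
  rw [Set.mem_singleton_iff]
  refine ⟨fun hξ => ?_, fun hξ => ?_⟩
  · by_contra hne
    have hd0 : (∏ P ∈ S, P) ≠ 0 := Finset.prod_ne_zero_iff.2 fun P hP => (hok.1 P (hS hP)).1.ne_zero
    obtain ⟨α, hα, hNα, hns, hLS⟩ := hTWS F g f _ hf.1 hf.2.1 hd0 ξ hξ hne
    exact hcore α hα hNα hns fun P _ _ => hLS (vv P)
  · rw [hξ]
    exact hSE1 F _ (by rw [monic_scaleRoots_iff]; exact hf.1)

end Pool.HYP
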